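import Pool.Agent.H7.UC.Iface

set_option autoImplicit false
open Pool.Agent.H75.Perc

/-! D3a from D1c: the probability belongs to the edge. -/

namespace Pool.Agent.H7.UC

theorem z2_cases (a : ZMod 2) : a = 0 ∨ a = 1 := by
  fin_cases a
  · exact Or.inl rfl
  · exact Or.inr rfl

theorem z2_add_self (a : ZMod 2) : a + a = 0 := CharTwo.add_self_eq_zero a

theorem ind_self {α : Type*} (a : α) : ind {a} a = 1 := by simp [ind]

theorem ind_ne {α : Type*} {a b : α} (h : b ≠ a) : ind {a} b = 0 := by simp [ind, h]

/-- The boundary of one edge. -/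
theorem dv_edge (v : Vx) (k : Fin 3) (w : Vx) :
    dv (ind {ed v k}) w = ind {v} w + ind {nb v k} w := by
  unfold dv
  have key : ∀ l : Fin 3, ind {ed v k} (ed w l) =
      if k = l ∧ (w = v ∨ w = nb v k) then (1 : ZMod 2) else 0 := by
    intro l
    simp only [ind, Set.mem_singleton_iff]
    have : (ed w l = ed v k) ↔ k = l ∧ (w = v ∨ w = nb v k) := by
      rw [eq_comm]; exact ed_eq_iff v w k l
    simp only [this]
  rw [key, key, key]
  by_cases h1 : w = v
  · subst h1
    rw [ind_self, ind_ne (nb_ne w k).symm]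
    fin_cases k <;> simp
  · by_cases h2 : w = nb v k
    · rw [h2, ind_self, ind_ne (nb_ne v k)]
      fin_cases k <;> simp
    · rw [ind_ne h1, ind_ne h2]
      simp [h1, h2]

theorem dv_add (x y : Ed → ZMod 2) (v : Vx) : dv (fun e => x e + y e) v = dv x v + dv y v := by
  unfold dv
  ring

/-- Adding the edge moves the defect to the other end and does not change the strand. -/
theorem sconn_flip (x : Ed → ZMod 2) (v : Vx) (k : Fin 3) (u : Vx) :
    SConn (fun e => x e + ind {ed v k} e) (nb v k) k u ↔ SConn x v k u := by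
  have hdel : del (fun e => x e + ind {ed v k} e) (ed v k) = del x (ed v k) := by
    funext e
    unfold del
    by_cases h : e = ed v k
    · simp [h]
    · simp only [h, if_false]
      rw [ind_ne h, add_zero]
  unfold SConn
  rw [ed_nb, nb_nb, hdel]
  simp only [ind_self]
  rcases z2_cases (x (ed v k)) with h | h
  · rw [h]
    simp
  · rw [h, show (1 : ZMod 2) + 1 = 0 from rfl]
    simp

theorem isRef_flip {U : Finset Fc} {M : Marks U 3} {v : Vx} {k : Fin 3} {c : Ed → ZMod 2}
    (he : inE U (ed v k)) (hc : IsRef M v c) :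
    IsRef M (nb v k) (fun e => c e + ind {ed v k} e) := by
  refine ⟨fun e h => ?_, fun w => ?_⟩
  · by_cases h' : e = ed v k
    · rw [h']; exact he
    · rw [ind_ne h', add_zero] at h
      exact hc.supp e h
  · rw [dv_add, hc.dv, dv_edge]
    have := z2_add_self (ind {v} w)
    linear_combination this

theorem d3a_of_d1c (h : D1c) : D3a := by
  intro U M hU v k he c c' hc hc' j
  have hV : inV U (nb v k) := by
    unfold inV
    rcases faces_ed v k with ⟨-, h1, h2⟩ | ⟨-, h1, h2⟩
    · rcases he with he | he
      · exact ⟨k + 2, by rw [fc_nb2, ← h1]; exact he⟩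
      · exact ⟨k + 1, by rw [fc_nb1, ← h2]; exact he⟩
    · rcases he with he | he
      · exact ⟨k + 1, by rw [fc_nb1, ← h1]; exact he⟩
      · exact ⟨k + 2, by rw [fc_nb2, ← h2]; exact he⟩
  rw [(h U M hU (nb v k) hV).2 c' _ hc' (isRef_flip he hc) k j]
  unfold X
  congr 1
  funext ω
  have e : (fun e => (c e + ind {ed v k} e) + bd (↑ω) e) =
      fun e => (c e + bd (↑ω) e) + ind {ed v k} e := by
    funext e; ring
  rw [e]
  exact propext (sconn_flip _ v k (M.u j)).symm

end Pool.Agent.H7.UC
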